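import Mathlib

/-! # Points of a closed planar set which are not isolated by gaps along horizontal lines -/

set_option autoImplicit false

namespace Pool.Agent.X177.GL

open MeasureTheory Set Filter Topology

/-- one-dimensional density: near almost every point of a closed set the gaps are relatively small -/
lemma gap_one {k : Set ℝ} {κ : ℝ} (hκ : 0 < κ) (hκ1 : κ ≤ 1) :
    ∀ᵐ x ∂(volume.restrict k), ∃ n : ℕ, ∀ s : ℝ, |s| ≤ 1 / ((n : ℝ) + 1) →
      s ≠ 0 → (∃ t ∈ Icc (0:ℝ) 1, x + s - t * κ * |s| ∈ k) ∧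
        (∃ t ∈ Icc (0:ℝ) 1, x + s + t * κ * |s| ∈ k) := by
  have h := Besicovitch.ae_tendsto_measure_inter_div (volume : Measure ℝ) k
  filter_upwards [h] with x hx
  have hη : (ENNReal.ofReal (1 - κ / 4)) < 1 := by
    rw [← ENNReal.ofReal_one]
    exact (ENNReal.ofReal_lt_ofReal_iff one_pos).2 (by linarith)
  have h1 := hx.eventually (lt_mem_nhds hη)
  rw [eventually_nhdsWithin_iff, Metric.eventually_nhds_iff] at h1
  obtain ⟨ε, hε, h1⟩ := h1
  obtain ⟨n, hn⟩ := exists_nat_one_div_lt (show (0:ℝ) < ε / 2 by linarith)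
  refine ⟨n, fun s hs hs0 => ?_⟩
  have hs' : 0 < |s| := abs_pos.2 hs0
  have h2 := h1 (y := 2 * |s|) (by
    rw [Real.dist_eq, sub_zero, abs_of_pos (by positivity)]
    linarith) (by simpa using hs0)
  have hvol : volume (Metric.closedBall x (2 * |s|)) = ENNReal.ofReal (4 * |s|) := by
    rw [Real.volume_closedBall]
    congr 1
    ring
  -- a general gap argument
  have key : ∀ a b : ℝ, a ≤ b → b - a = κ * |s| → x - 2 * |s| ≤ a → b ≤ x + 2 * |s| →
      ¬ (Icc a b ∩ k = ∅) := by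
    intro a b hab hba ha hb hemp
    have hsub : k ∩ Metric.closedBall x (2 * |s|) ⊆ Metric.closedBall x (2 * |s|) \ Icc a b := by
      intro y hy
      refine ⟨hy.2, fun hy' => ?_⟩
      have : y ∈ Icc a b ∩ k := ⟨hy', hy.1⟩
      rw [hemp] at this
      exact this
    have hle := measure_mono hsub (μ := volume)
    have hin : Icc a b ⊆ Metric.closedBall x (2 * |s|) := by
      rw [Real.closedBall_eq_Icc]
      exact Icc_subset_Icc ha hb
    rw [measure_sdiff hin measurableSet_Icc.nullMeasurableSet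
      (by rw [Real.volume_Icc]; exact ENNReal.ofReal_ne_top), hvol, Real.volume_Icc, hba,
      ← ENNReal.ofReal_sub _ (by positivity)] at hle
    have h3 : volume (k ∩ Metric.closedBall x (2 * |s|)) / volume (Metric.closedBall x (2 * |s|))
        ≤ ENNReal.ofReal (1 - κ / 4) := by
      rw [hvol]
      refine ENNReal.div_le_of_le_mul ?_
      refine hle.trans ?_
      rw [← ENNReal.ofReal_mul (by linarith)]
      exact ENNReal.ofReal_le_ofReal (by nlinarith)
    exact absurd h2 (not_lt.2 h3)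
  have habs := abs_le.1 (le_refl |s|)
  constructor
  · by_contra hcon
    push Not at hcon
    apply key (x + s - κ * |s|) (x + s) (by nlinarith) (by ring) (by nlinarith) (by linarith)
    rw [← Set.subset_empty_iff]
    rintro y ⟨⟨hy1, hy2⟩, hy⟩
    refine hcon ((x + s - y) / (κ * |s|)) ⟨div_nonneg (by linarith) (by positivity), ?_⟩ ?_
    · rw [div_le_one (by positivity)]
      linarith
    · have : x + s - (x + s - y) / (κ * |s|) * κ * |s| = y := by
        field_simp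
        ring
      rw [this]
      exact hy
  · by_contra hcon
    push Not at hcon
    apply key (x + s) (x + s + κ * |s|) (by nlinarith) (by ring) (by linarith) (by nlinarith)
    rw [← Set.subset_empty_iff]
    rintro y ⟨⟨hy1, hy2⟩, hy⟩
    refine hcon ((y - x - s) / (κ * |s|)) ⟨div_nonneg (by linarith) (by positivity), ?_⟩ ?_
    · rw [div_le_one (by positivity)]
      linarith
    · have : x + s + (y - x - s) / (κ * |s|) * κ * |s| = y := by
        field_simp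
        ring
      rw [this]
      exact hy

/-- the points of `K` for which the horizontal gaps of `K` are small at the scales at most `δ` -/
def GH (K : Set (ℝ × ℝ)) (κ δ : ℝ) : Set (ℝ × ℝ) :=
  {z | ∀ s : ℝ, |s| ≤ δ → (∃ t ∈ Icc (0:ℝ) 1, (z.1 + s - t * κ * |s|, z.2) ∈ K) ∧
    (∃ t ∈ Icc (0:ℝ) 1, (z.1 + s + t * κ * |s|, z.2) ∈ K)}

lemma isClosed_exists {K : Set (ℝ × ℝ)} (hK : IsClosed K) (s c : ℝ) :
    IsClosed {z : ℝ × ℝ | ∃ t ∈ Icc (0:ℝ) 1, (z.1 + s + t * c, z.2) ∈ K} := by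
  have h : {z : ℝ × ℝ | ∃ t ∈ Icc (0:ℝ) 1, (z.1 + s + t * c, z.2) ∈ K} =
      Prod.fst '' {q : (ℝ × ℝ) × Icc (0:ℝ) 1 | (q.1.1 + s + (q.2 : ℝ) * c, q.1.2) ∈ K} := by
    ext z
    constructor
    · rintro ⟨t, ht, h⟩
      exact ⟨(z, ⟨t, ht⟩), h, rfl⟩
    · rintro ⟨⟨z', t⟩, h, rfl⟩
      exact ⟨t, t.2, h⟩
  rw [h]
  apply isClosedMap_fst_of_compactSpace
  exact hK.preimage (by fun_prop)

lemma isClosed_GH {K : Set (ℝ × ℝ)} (hK : IsClosed K) (κ δ : ℝ) : IsClosed (GH K κ δ) := by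
  have h : GH K κ δ = ⋂ s : ℝ, ⋂ _ : |s| ≤ δ,
      ({z : ℝ × ℝ | ∃ t ∈ Icc (0:ℝ) 1, (z.1 + s + t * (-(κ * |s|)), z.2) ∈ K} ∩
        {z : ℝ × ℝ | ∃ t ∈ Icc (0:ℝ) 1, (z.1 + s + t * (κ * |s|), z.2) ∈ K}) := by
    ext z
    simp only [GH, mem_ofPred_eq, mem_iInter, mem_inter_iff]
    refine forall_congr' fun s => forall_congr' fun _ => ?_
    have e1 : ∀ t : ℝ, z.1 + s + t * (-(κ * |s|)) = z.1 + s - t * κ * |s| := fun t => by ring
    have e2 : ∀ t : ℝ, z.1 + s + t * (κ * |s|) = z.1 + s + t * κ * |s| := fun t => by ring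
    simp only [e1, e2]
  rw [h]
  exact isClosed_iInter fun s => isClosed_iInter fun _ =>
    (isClosed_exists hK _ _).inter (isClosed_exists hK _ _)

/-- almost every point of a closed set is in `⋃ GH` -/
lemma ae_GH {K : Set (ℝ × ℝ)} (hK : IsClosed K) {κ : ℝ} (hκ : 0 < κ) (hκ1 : κ ≤ 1) :
    ∀ᵐ z ∂(volume : Measure (ℝ × ℝ)), z ∈ K → ∃ n : ℕ, z ∈ GH K κ (1 / ((n : ℝ) + 1)) := by
  rw [ae_iff]
  set B := {z : ℝ × ℝ | ¬ (z ∈ K → ∃ n : ℕ, z ∈ GH K κ (1 / ((n : ℝ) + 1)))} with hB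
  have hBe : B = K \ ⋃ n : ℕ, GH K κ (1 / ((n : ℝ) + 1)) := by
    ext z
    simp [hB, mem_iUnion]
  have hBm : MeasurableSet B := by
    rw [hBe]
    exact hK.measurableSet.diff (MeasurableSet.iUnion fun n => (isClosed_GH hK _ _).measurableSet)
  rw [show (volume : Measure (ℝ × ℝ)) = (volume : Measure ℝ).prod (volume : Measure ℝ) from rfl,
    Measure.prod_apply_symm hBm]
  rw [lintegral_eq_zero_iff' ?_]
  · refine Eventually.of_forall fun y => ?_
    set k := {x : ℝ | (x, y) ∈ K} with hk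
    have hkc : IsClosed k := hK.preimage (by fun_prop)
    have h1 := gap_one (k := k) hκ hκ1
    rw [ae_restrict_iff' hkc.measurableSet, ae_iff] at h1
    refine measure_mono_null ?_ h1
    intro x hx
    simp only [mem_preimage, hB, mem_ofPred_eq] at hx ⊢
    intro hcon
    apply hx
    intro hxK
    obtain ⟨n, hn⟩ := hcon hxK
    refine ⟨n, fun s hs => ?_⟩
    by_cases hs0 : s = 0
    · subst hs0
      refine ⟨⟨0, by simp, by simpa using hxK⟩, ⟨0, by simp, by simpa using hxK⟩⟩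
    · exact hn s hs hs0
  · exact (measurable_measure_prodMk_right hBm).aemeasurable

/-- vertical version -/
def GV (K : Set (ℝ × ℝ)) (κ δ : ℝ) : Set (ℝ × ℝ) :=
  {z | ∀ s : ℝ, |s| ≤ δ → (∃ t ∈ Icc (0:ℝ) 1, (z.1, z.2 + s - t * κ * |s|) ∈ K) ∧
    (∃ t ∈ Icc (0:ℝ) 1, (z.1, z.2 + s + t * κ * |s|) ∈ K)}

lemma ae_swap {p : ℝ × ℝ → Prop} (h : ∀ᵐ z ∂(volume : Measure (ℝ × ℝ)), p z) :
    ∀ᵐ z ∂(volume : Measure (ℝ × ℝ)), p z.swap := by
  have : MeasurePreserving (Prod.swap : ℝ × ℝ → ℝ × ℝ) volume volume :=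
    Measure.measurePreserving_swap
  exact this.quasiMeasurePreserving.tendsto_ae.eventually h

lemma ae_GV {K : Set (ℝ × ℝ)} (hK : IsClosed K) {κ : ℝ} (hκ : 0 < κ) (hκ1 : κ ≤ 1) :
    ∀ᵐ z ∂(volume : Measure (ℝ × ℝ)), z ∈ K → ∃ n : ℕ, z ∈ GV K κ (1 / ((n : ℝ) + 1)) := by
  have h := ae_swap (ae_GH (K := Prod.swap ⁻¹' K) (hK.preimage continuous_swap) hκ hκ1)
  filter_upwards [h] with z hz hzK
  obtain ⟨n, hn⟩ := hz (by simpa using hzK)
  exact ⟨n, fun s hs => hn s hs⟩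

end Pool.Agent.X177.GL
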