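import Mathlib

/-! # Injective maps into a simple closed curve are locally monotone, hence differentiable almost
everywhere -/

set_option autoImplicit false

namespace Pool.Agent.X177.GL

open MeasureTheory Set Filter Topology
open scoped Manifold ContDiff

section top

variable {S : Type*} [TopologicalSpace S] [T2Space S]

omit [TopologicalSpace S] [T2Space S] in
lemma inj_mod {β : ℝ → S} {T : ℝ} (hT : 0 < T) (hper : Function.Periodic β T)
    (hinj : InjOn β (Ico 0 T)) {s t : ℝ} (hst : |s - t| < T) (h : β s = β t) : s = t := by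
  have hs := toIcoMod_add_toIcoDiv_zsmul hT 0 s
  have ht := toIcoMod_add_toIcoDiv_zsmul hT 0 t
  have hs1 := toIcoMod_mem_Ico hT 0 s
  have ht1 := toIcoMod_mem_Ico hT 0 t
  rw [zero_add] at hs1 ht1
  set s' := toIcoMod hT 0 s
  set t' := toIcoMod hT 0 t
  have e1 : β s' = β s := by
    rw [← hs]
    have := hper.sub_zsmul_eq (x := s' + toIcoDiv hT 0 s • T) (toIcoDiv hT 0 s)
    rw [add_sub_cancel_right] at this
    exact this
  have e2 : β t' = β t := by
    rw [← ht]
    have := hper.sub_zsmul_eq (x := t' + toIcoDiv hT 0 t • T) (toIcoDiv hT 0 t)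
    rw [add_sub_cancel_right] at this
    exact this
  have e3 : s' = t' := hinj hs1 ht1 (by rw [e1, e2, h])
  have e4 : s - t = ((toIcoDiv hT 0 s - toIcoDiv hT 0 t : ℤ) : ℝ) * T := by
    rw [zsmul_eq_mul] at hs ht
    push_cast
    linarith
  rw [e4, abs_mul, abs_of_pos hT] at hst
  have e5 : |((toIcoDiv hT 0 s - toIcoDiv hT 0 t : ℤ) : ℝ)| < 1 := by
    by_contra hcon
    push Not at hcon
    nlinarith
  have e6 : toIcoDiv hT 0 s - toIcoDiv hT 0 t = 0 := by
    rw [← Int.cast_abs] at e5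
    have : |toIcoDiv hT 0 s - toIcoDiv hT 0 t| < 1 := by exact_mod_cast e5
    exact Int.abs_lt_one_iff.1 this
  rw [e6] at e4
  simp only [Int.cast_zero, zero_mul] at e4
  linarith

lemma exists_lift {β : ℝ → S} (hβ : Continuous β) {T : ℝ} (hT : 0 < T)
    (hper : Function.Periodic β T) (hinj : InjOn β (Ico 0 T)) {g : ℝ → S} {a b : ℝ}
    (hg : ContinuousOn g (Ioo a b)) (hgi : InjOn g (Ioo a b))
    (hgr : ∀ u ∈ Ioo a b, g u ∈ range β) {u0 : ℝ} (hu0 : u0 ∈ Ioo a b) :
    ∃ a' b' : ℝ, a' < u0 ∧ u0 < b' ∧ ∃ h : ℝ → ℝ,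
      (MonotoneOn h (Icc a' b') ∨ AntitoneOn h (Icc a' b')) ∧ ∀ u ∈ Icc a' b', g u = β (h u) := by
  obtain ⟨s0, hs0⟩ := hgr u0 hu0
  set I := Icc (s0 - T / 4) (s0 + T / 4) with hI
  set I' := Icc (s0 + T / 4) (s0 + 3 * T / 4) with hI'
  have hcl : IsClosed (β '' I') := (isCompact_Icc.image hβ).isClosed
  have hnot : g u0 ∉ β '' I' := by
    rintro ⟨t, ht, h⟩
    rw [← hs0] at h
    have := inj_mod hT hper hinj (s := t) (t := s0) (by
      rw [abs_lt]
      constructor <;> linarith [ht.1, ht.2]) h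
    rw [this] at ht
    linarith [ht.1]
  have hev : ∀ᶠ u in 𝓝 u0, g u ∉ β '' I' :=
    (hg.continuousAt (Ioo_mem_nhds hu0.1 hu0.2)).eventually_mem (hcl.isOpen_compl.mem_nhds hnot)
  have hev2 : ∀ᶠ u in 𝓝 u0, u ∈ Ioo a b := Ioo_mem_nhds hu0.1 hu0.2
  obtain ⟨ε, hε, hball⟩ := Metric.eventually_nhds_iff.1 (hev.and hev2)
  refine ⟨u0 - ε / 2, u0 + ε / 2, by linarith, by linarith, ?_⟩
  set J := Icc (u0 - ε / 2) (u0 + ε / 2) with hJ
  have hJ1 : ∀ u ∈ J, g u ∉ β '' I' ∧ u ∈ Ioo a b := fun u hu => hball (by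
    rw [Real.dist_eq, abs_lt]
    constructor <;> linarith [hu.1, hu.2])
  have hex : ∀ u : ℝ, ∃ s : I, u ∈ J → β s = g u := by
    intro u
    by_cases hu : u ∈ J
    · obtain ⟨h1, h2⟩ := hJ1 u hu
      obtain ⟨s, hs⟩ := hgr u h2
      have hs1 := toIcoMod_mem_Ico hT (s0 - T / 4) s
      have hs2 := toIcoMod_add_toIcoDiv_zsmul hT (s0 - T / 4) s
      set s' := toIcoMod hT (s0 - T / 4) s
      have e1 : β s' = β s := by
        rw [← hs2]
        have := hper.sub_zsmul_eq (x := s' + toIcoDiv hT (s0 - T / 4) s • T)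
          (toIcoDiv hT (s0 - T / 4) s)
        rw [add_sub_cancel_right] at this
        exact this
      have hs3 : s' ∈ I := by
        by_contra hcon
        apply h1
        refine ⟨s', ?_, e1.trans hs⟩
        rw [hI, mem_Icc, not_and_or, not_le, not_le] at hcon
        rcases hcon with hcon | hcon
        · exact absurd hcon (not_lt.2 hs1.1)
        · exact ⟨hcon.le, by linarith [hs1.2]⟩
      exact ⟨⟨s', hs3⟩, fun _ => e1.trans hs⟩
    · exact ⟨⟨s0, ⟨by linarith, by linarith⟩⟩, fun h => absurd h hu⟩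
  choose H hH using hex
  have hemb : IsClosedEmbedding (fun s : I => β s) := by
    apply Continuous.isClosedEmbedding (hβ.comp continuous_subtype_val)
    intro s t hst
    apply Subtype.ext
    refine inj_mod hT hper hinj ?_ hst
    have h1 : s0 - T / 4 ≤ (s : ℝ) ∧ (s : ℝ) ≤ s0 + T / 4 := s.2
    have h2 : s0 - T / 4 ≤ (t : ℝ) ∧ (t : ℝ) ≤ s0 + T / 4 := t.2
    rw [abs_lt]
    constructor <;> linarith [h1.1, h1.2, h2.1, h2.2]
  have hHc : ContinuousOn H J := by
    rw [hemb.isInducing.continuousOn_iff]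
    refine (hg.mono fun u hu => (hJ1 u hu).2).congr fun u hu => hH u hu
  have hhc : ContinuousOn (fun u => (H u : ℝ)) J := continuous_subtype_val.comp_continuousOn hHc
  have hhi : InjOn (fun u => (H u : ℝ)) J := by
    intro u hu v hv huv
    apply hgi (hJ1 u hu).2 (hJ1 v hv).2
    rw [← hH u hu, ← hH v hv]
    have : (H u : ℝ) = H v := huv
    rw [this]
  refine ⟨fun u => (H u : ℝ), ?_, fun u hu => (hH u hu).symm⟩
  rcases ContinuousOn.strictMonoOn_of_injOn_Icc' (by linarith) hhc hhi with h | h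
  · exact Or.inl h.monotoneOn
  · exact Or.inr h.antitoneOn

end top

lemma ae_diff_mono {h : ℝ → ℝ} {a b : ℝ} (hm : MonotoneOn h (Icc a b) ∨ AntitoneOn h (Icc a b)) :
    ∀ᵐ u ∂(volume : Measure ℝ), u ∈ Ioo a b → DifferentiableAt ℝ h u := by
  have key : ∀ h : ℝ → ℝ, MonotoneOn h (Icc a b) →
      ∀ᵐ u ∂(volume : Measure ℝ), u ∈ Ioo a b → DifferentiableAt ℝ h u := by
    intro h hm
    have h1 := hm.ae_differentiableWithinAt measurableSet_Icc
    rw [ae_restrict_iff' measurableSet_Icc] at h1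
    filter_upwards [h1] with u hu hu2
    exact (hu (Ioo_subset_Icc_self hu2)).differentiableAt (Icc_mem_nhds hu2.1 hu2.2)
  rcases hm with hm | hm
  · exact key h hm
  · filter_upwards [key (fun u => - h u) (fun u hu v hv huv => neg_le_neg (hm hu hv huv))]
      with u hu hu2
    have := (hu hu2).neg
    simpa using this

section man

variable {S : Type*} [TopologicalSpace S] [T2Space S]
  [ChartedSpace (EuclideanSpace ℝ (Fin 2)) S]

/-- an injective continuous map of an interval into a simple closed `C¹` curve is differentiable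
almost everywhere -/
lemma ae_mdiff {β : ℝ → S} (hβ : ContMDiff 𝓘(ℝ) (𝓡 2) 1 β) {T : ℝ} (hT : 0 < T)
    (hper : Function.Periodic β T) (hinj : InjOn β (Ico 0 T)) {g : ℝ → S} {a b : ℝ}
    (hg : ContinuousOn g (Ioo a b)) (hgi : InjOn g (Ioo a b))
    (hgr : ∀ u ∈ Ioo a b, g u ∈ range β) :
    ∀ᵐ u ∂(volume : Measure ℝ), u ∈ Ioo a b → MDifferentiableAt 𝓘(ℝ) (𝓡 2) g u := by
  rw [ae_iff]
  apply measure_null_of_locally_null
  intro u0 hu0
  simp only [mem_ofPred_eq] at hu0
  push Not at hu0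
  obtain ⟨a', b', ha', hb', h, hm, hgh⟩ := exists_lift hβ.continuous hT hper hinj hg hgi hgr hu0.1
  have h1 := ae_diff_mono hm
  rw [ae_iff] at h1
  refine ⟨{u | ¬ (u ∈ Ioo a b → MDifferentiableAt 𝓘(ℝ) (𝓡 2) g u)} ∩ Ioo a' b',
    inter_mem_nhdsWithin _ (Ioo_mem_nhds ha' hb'), measure_mono_null ?_ h1⟩
  rintro u ⟨hu1, hu2⟩
  simp only [mem_ofPred_eq] at hu1 ⊢
  intro hcon
  apply hu1
  intro _
  have h2 : DifferentiableAt ℝ h u := hcon hu2
  have h3 : g =ᶠ[𝓝 u] fun v => β (h v) := by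
    filter_upwards [Ioo_mem_nhds hu2.1 hu2.2] with v hv
    exact hgh v (Ioo_subset_Icc_self hv)
  have h4 : MDifferentiableAt 𝓘(ℝ) (𝓡 2) (fun v => β (h v)) u :=
    ((hβ (h u)).mdifferentiableAt (by norm_num)).comp u h2.mdifferentiableAt
  exact h4.congr_of_eventuallyEq h3

end man

end Pool.Agent.X177.GL
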