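import Pool.Agent.X177.GL.Plane
import Pool.Agent.X177.GL.Lift

/-! # Homeomorphisms of a surface which map round circles of charts into simple closed `C¹` curves are
differentiable almost everywhere -/

set_option autoImplicit false

namespace Pool.Agent.X177.GL

open MeasureTheory Set Filter Topology
open scoped Manifold ContDiff

/-- coordinates of the Euclidean plane -/
noncomputable def e2 : (ℝ × ℝ) ≃L[ℝ] EuclideanSpace ℝ (Fin 2) :=
  (ContinuousLinearEquiv.finTwoArrow ℝ ℝ).symm.trans (EuclideanSpace.equiv (Fin 2) ℝ).symm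

lemma mp_e2 : MeasurePreserving (e2 : ℝ × ℝ → EuclideanSpace ℝ (Fin 2)) volume volume := by
  have h1 : MeasurePreserving (MeasurableEquiv.finTwoArrow (α := ℝ)).symm volume volume :=
    (volume_preserving_finTwoArrow ℝ).symm
  have h2 := PiLp.volume_preserving_toLp (Fin 2)
  exact h2.comp h1

lemma null_e2 {Z : Set (ℝ × ℝ)} (hZ : volume Z = 0) : volume (e2 '' Z) = 0 := by
  have h1 : MeasurePreserving (e2.symm : EuclideanSpace ℝ (Fin 2) → ℝ × ℝ) volume volume := by
    have := MeasurePreserving.symm (e2.toHomeomorph.toMeasurableEquiv) mp_e2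
    exact this
  have h2 : e2 '' Z = e2.symm ⁻¹' Z := by
    ext y
    constructor
    · rintro ⟨z, hz, rfl⟩
      simpa using hz
    · intro hy
      exact ⟨e2.symm y, hy, by simp⟩
  rw [h2]
  exact h1.quasiMeasurePreserving.preimage_null hZ

/-- inversion -/
noncomputable def J (w : ℝ × ℝ) : ℝ × ℝ := (w.1 / (w.1 ^ 2 + w.2 ^ 2), w.2 / (w.1 ^ 2 + w.2 ^ 2))

/-- the open quadrant -/
def P : Set (ℝ × ℝ) := {w | 0 < w.1 ∧ 0 < w.2}

lemma isOpen_P : IsOpen P :=
  (isOpen_lt continuous_const continuous_fst).inter (isOpen_lt continuous_const continuous_snd)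

lemma J_mem {w : ℝ × ℝ} (hw : w ∈ P) : J w ∈ P := by
  obtain ⟨h1, h2⟩ := hw
  exact ⟨by simp only [J]; positivity, by simp only [J]; positivity⟩

lemma J_J {w : ℝ × ℝ} (hw : w ∈ P) : J (J w) = w := by
  obtain ⟨h1, h2⟩ := hw
  have h3 : 0 < w.1 ^ 2 + w.2 ^ 2 := by positivity
  have h4 : (w.1 / (w.1 ^ 2 + w.2 ^ 2)) ^ 2 + (w.2 / (w.1 ^ 2 + w.2 ^ 2)) ^ 2 =
      1 / (w.1 ^ 2 + w.2 ^ 2) := by
    field_simp
  apply Prod.ext
  · simp only [J]
    rw [h4]
    field_simp
  · simp only [J]
    rw [h4]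
    field_simp

lemma diff_J {w : ℝ × ℝ} (hw : w ∈ P) : DifferentiableAt ℝ J w := by
  obtain ⟨h1, h2⟩ := hw
  have h3 : w.1 ^ 2 + w.2 ^ 2 ≠ 0 := by positivity
  have h6 : DifferentiableAt ℝ (fun w : ℝ × ℝ => (w.1 ^ 2 + w.2 ^ 2)⁻¹) w :=
    DifferentiableAt.inv (h := fun w : ℝ × ℝ => w.1 ^ 2 + w.2 ^ 2) (by fun_prop) h3
  have h4 : DifferentiableAt ℝ (fun w : ℝ × ℝ => w.1 / (w.1 ^ 2 + w.2 ^ 2)) w := by
    simp only [div_eq_mul_inv]
    exact differentiableAt_fst.mul h6
  have h5 : DifferentiableAt ℝ (fun w : ℝ × ℝ => w.2 / (w.1 ^ 2 + w.2 ^ 2)) w := by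
    simp only [div_eq_mul_inv]
    exact differentiableAt_snd.mul h6
  exact h4.prodMk h5

/-- points of a circle -/
lemma exists_angle {X Y r : ℝ} (hr : 0 < r) (h : X ^ 2 + Y ^ 2 = r ^ 2) :
    ∃ t : ℝ, X = r * Real.cos t ∧ Y = r * Real.sin t := by
  have hn : ‖(⟨X, Y⟩ : ℂ)‖ = r := by
    rw [Complex.norm_def, Complex.normSq_mk, ← sq, ← sq, h, Real.sqrt_sq hr.le]
  refine ⟨(⟨X, Y⟩ : ℂ).arg, ?_, ?_⟩
  · have := Complex.norm_mul_cos_arg (⟨X, Y⟩ : ℂ)
    rw [hn] at this
    exact this.symm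
  · have := Complex.norm_mul_sin_arg (⟨X, Y⟩ : ℂ)
    rw [hn] at this
    exact this.symm

lemma J_hor {u c : ℝ} (hc : 0 < c) : ∃ t : ℝ,
    J (u, c) = (1 / (2 * c) * Real.cos t, 1 / (2 * c) + 1 / (2 * c) * Real.sin t) := by
  have hpos : 0 < u ^ 2 + c ^ 2 := by positivity
  obtain ⟨t, h1, h2⟩ := exists_angle (X := u / (u ^ 2 + c ^ 2))
    (Y := c / (u ^ 2 + c ^ 2) - 1 / (2 * c)) (r := 1 / (2 * c)) (by positivity) (by
      field_simp
      ring)
  refine ⟨t, Prod.ext ?_ ?_⟩
  · exact h1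
  · simp only [J]
    linarith

lemma J_ver {u c : ℝ} (hc : 0 < c) : ∃ t : ℝ,
    J (c, u) = (1 / (2 * c) + 1 / (2 * c) * Real.cos t, 1 / (2 * c) * Real.sin t) := by
  have hpos : 0 < c ^ 2 + u ^ 2 := by positivity
  obtain ⟨t, h1, h2⟩ := exists_angle (X := c / (c ^ 2 + u ^ 2) - 1 / (2 * c))
    (Y := u / (c ^ 2 + u ^ 2)) (r := 1 / (2 * c)) (by positivity) (by
      field_simp
      ring)
  refine ⟨t, Prod.ext ?_ ?_⟩
  · simp only [J]
    linarith
  · exact h2

variable {S : Type*} [TopologicalSpace S] [T2Space S]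
  [ChartedSpace (EuclideanSpace ℝ (Fin 2)) S] [IsManifold (𝓡 2) ∞ S]

theorem null_nondiff (f : S ≃ₜ S) {φ : OpenPartialHomeomorph S (EuclideanSpace ℝ (Fin 2))}
    (hφ : φ ∈ IsManifold.maximalAtlas (𝓡 2) ∞ S)
    (hcirc : ∀ a b r : ℝ, 0 < r →
      (∀ t : ℝ, e2 (a + r * Real.cos t, b + r * Real.sin t) ∈ φ.target) →
      ∃ (β : ℝ → S) (T : ℝ), 0 < T ∧ ContMDiff 𝓘(ℝ) (𝓡 2) 1 β ∧ Function.Periodic β T ∧
        InjOn β (Ico 0 T) ∧ ∀ t : ℝ,
          f (φ.symm (e2 (a + r * Real.cos t, b + r * Real.sin t))) ∈ range β) :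
    volume (φ '' (φ.source ∩ {p | ¬ MDifferentiableAt (𝓡 2) (𝓡 2) f p})) = 0 := by
  apply measure_null_of_locally_null
  rintro x ⟨p, ⟨hp, hpN⟩, hpx⟩
  have hxt : x ∈ φ.target := hpx ▸ φ.map_source hp
  set x' := e2.symm x with hx'
  have hex' : e2 x' = x := by simp [hx']
  -- scale
  obtain ⟨ε, hε, hball⟩ : ∃ ε > 0, ∀ y : ℝ × ℝ, ‖y‖ < ε → e2 (x' + y) ∈ φ.target := by
    have hc : Continuous fun y : ℝ × ℝ => e2 (x' + y) := by fun_prop
    have h1 : ∀ᶠ y in 𝓝 (0 : ℝ × ℝ), e2 (x' + y) ∈ φ.target := by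
      apply hc.continuousAt.eventually_mem
      rw [add_zero, hex']
      exact φ.open_target.mem_nhds hxt
    obtain ⟨ε, hε, h2⟩ := Metric.eventually_nhds_iff.1 h1
    exact ⟨ε, hε, fun y hy => h2 (by rw [dist_zero_right]; exact hy)⟩
  set ρ := ε / 3 with hρdef
  have hρ : 0 < ρ := by positivity
  set j0 : ℝ × ℝ := (1 / 4, 1 / 4) with hj0
  set A : ℝ × ℝ → ℝ × ℝ := fun y => x' + ρ • (y - j0) with hA
  set A' : ℝ × ℝ → ℝ × ℝ := fun y => ρ⁻¹ • (y - x') + j0 with hA'
  have hAA' : ∀ y, A (A' y) = y := by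
    intro y
    simp only [hA, hA', add_sub_cancel_right, smul_smul, mul_inv_cancel₀ hρ.ne', one_smul]
    abel
  have hA'A : ∀ y, A' (A y) = y := by
    intro y
    simp only [hA, hA', add_sub_cancel_left, smul_smul, inv_mul_cancel₀ hρ.ne', one_smul]
    abel
  have hAtar : ∀ y : ℝ × ℝ, |y.1| ≤ 1 → |y.2| ≤ 1 → e2 (A y) ∈ φ.target := by
    intro y h1 h2
    apply hball
    rw [norm_smul, Real.norm_of_nonneg hρ.le]
    have h3 : ‖y - j0‖ ≤ 2 := by
      rw [Prod.norm_def]
      apply max_le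
      · rw [Real.norm_eq_abs, Prod.fst_sub]
        rw [abs_le] at h1 ⊢
        simp only [hj0]
        constructor <;> linarith
      · rw [Real.norm_eq_abs, Prod.snd_sub]
        rw [abs_le] at h2 ⊢
        simp only [hj0]
        constructor <;> linarith
    have : ρ * ‖y - j0‖ ≤ ρ * 2 := mul_le_mul_of_nonneg_left h3 hρ.le
    linarith
  set w0 : ℝ × ℝ := (2, 2) with hw0
  have hJw0 : J w0 = j0 := by
    simp only [J, hw0, hj0]
    norm_num
  have hAw0 : A (J w0) = x' := by
    rw [hJw0]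
    simp [hA]
  have hw0P : w0 ∈ P := ⟨by norm_num [hw0], by norm_num [hw0]⟩
  set q0 := φ.symm x with hq0
  have hq0s : q0 ∈ φ.source := φ.map_target hxt
  set ψ := chartAt (EuclideanSpace ℝ (Fin 2)) (f q0) with hψ
  have hψm : ψ ∈ IsManifold.maximalAtlas (𝓡 2) ∞ S := IsManifold.chart_mem_maximalAtlas _
  -- the local homeomorphism
  let Jh : OpenPartialHomeomorph (ℝ × ℝ) (ℝ × ℝ) :=
    { toFun := J
      invFun := J
      source := P
      target := P
      map_source' := fun w hw => J_mem hw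
      map_target' := fun w hw => J_mem hw
      left_inv' := fun w hw => J_J hw
      right_inv' := fun w hw => J_J hw
      open_source := isOpen_P
      open_target := isOpen_P
      continuousOn_toFun := fun w hw => (diff_J hw).continuousAt.continuousWithinAt
      continuousOn_invFun := fun w hw => (diff_J hw).continuousAt.continuousWithinAt }
  let Ah : (ℝ × ℝ) ≃ₜ (ℝ × ℝ) :=
    { toFun := A
      invFun := A'
      left_inv := hA'A
      right_inv := hAA'
      continuous_toFun := by simp only [hA]; fun_prop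
      continuous_invFun := by simp only [hA']; fun_prop }
  let Gh : OpenPartialHomeomorph (ℝ × ℝ) (EuclideanSpace ℝ (Fin 2)) :=
    Jh ≫ₕ (Ah.trans e2.toHomeomorph).toOpenPartialHomeomorph
  let χ : OpenPartialHomeomorph (ℝ × ℝ) (EuclideanSpace ℝ (Fin 2)) :=
    Gh ≫ₕ (φ.symm ≫ₕ (f.toOpenPartialHomeomorph ≫ₕ ψ))
  have hGh : ∀ w, Gh w = e2 (A (J w)) := fun w => rfl
  have hGs : Gh.source = P := by
    simp [Gh, Jh]
  have hχ : ∀ w, χ w = ψ (f (φ.symm (e2 (A (J w))))) := fun w => rfl
  have hχs : ∀ w, w ∈ χ.source ↔ w ∈ P ∧ e2 (A (J w)) ∈ φ.target ∧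
      f (φ.symm (e2 (A (J w)))) ∈ ψ.source := by
    intro w
    simp only [χ, OpenPartialHomeomorph.trans_source, mem_inter_iff, mem_preimage, hGs]
    simp [hGh]
  have hw0s : w0 ∈ χ.source := by
    rw [hχs]
    refine ⟨hw0P, ?_, ?_⟩
    · rw [hAw0, hex']
      exact hxt
    · rw [hAw0, hex']
      exact mem_chart_source _ _
  obtain ⟨η, hη, hηs⟩ := Metric.isOpen_iff.1 χ.open_source w0 hw0s
  set τ := min (η / 2) (1 / 2) with hτ
  have hτ0 : 0 < τ := by positivity
  have hτ1 : τ ≤ 1 / 2 := min_le_right _ _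
  have hτη : τ < η := lt_of_le_of_lt (min_le_left _ _) (by linarith)
  have hbox : ∀ w : ℝ × ℝ, w.1 ∈ Icc (2 - τ) (2 + τ) → w.2 ∈ Icc (2 - τ) (2 + τ) → w ∈ χ.source := by
    intro w h1 h2
    apply hηs
    rw [Metric.mem_ball, Prod.dist_eq, Real.dist_eq, Real.dist_eq]
    apply lt_of_le_of_lt (max_le (b := |w.2 - w0.2|) (c := τ) _ _) hτη
    · rw [abs_le]
      simp only [hw0]
      constructor <;> linarith [h1.1, h1.2]
    · rw [abs_le]
      simp only [hw0]
      constructor <;> linarith [h2.1, h2.2]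
  -- clamping
  set cl : ℝ × ℝ → ℝ × ℝ := fun w =>
    (max (2 - τ) (min (2 + τ) w.1), max (2 - τ) (min (2 + τ) w.2)) with hcl
  have hclc : Continuous cl := by
    simp only [hcl]
    fun_prop
  have hclm : ∀ w, cl w ∈ χ.source := by
    intro w
    apply hbox
    · exact ⟨le_max_left _ _, max_le (by linarith) (min_le_left _ _)⟩
    · exact ⟨le_max_left _ _, max_le (by linarith) (min_le_left _ _)⟩
  have hcle : ∀ w : ℝ × ℝ, w.1 ∈ Icc (2 - τ) (2 + τ) → w.2 ∈ Icc (2 - τ) (2 + τ) → cl w = w := by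
    intro w h1 h2
    simp only [hcl]
    rw [min_eq_right h1.2, min_eq_right h2.2, max_eq_right h1.1, max_eq_right h2.1]
  set F : ℝ × ℝ → EuclideanSpace ℝ (Fin 2) := fun w => χ (cl w) with hF
  have hFc : Continuous F := by
    rw [← continuousOn_univ]
    exact χ.continuousOn.comp hclc.continuousOn fun w _ => hclm w
  set U : Set (ℝ × ℝ) := Ioo (2 - τ) (2 + τ) ×ˢ Ioo (2 - τ) (2 + τ) with hU
  have hUo : IsOpen U := isOpen_Ioo.prod isOpen_Ioo
  have hUcl : ∀ w ∈ U, cl w = w := fun w hw =>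
    hcle w (Ioo_subset_Icc_self hw.1) (Ioo_subset_Icc_self hw.2)
  have hUF : ∀ w ∈ U, F w = χ w := fun w hw => by simp only [hF]; rw [hUcl w hw]
  have hUs : U ⊆ χ.source := fun w hw =>
    hbox w (Ioo_subset_Icc_self hw.1) (Ioo_subset_Icc_self hw.2)
  have hopen : ∀ V : Set (ℝ × ℝ), IsOpen V → V ⊆ U → IsOpen (F '' V) := by
    intro V hV hVU
    have : F '' V = χ '' V := image_congr fun w hw => hUF w (hVU hw)
    rw [this]
    exact χ.isOpen_image_of_subset_source hV (hVU.trans hUs)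
  have hmdχ : ∀ w, w ∈ χ.source →
      MDifferentiableAt (𝓡 2) (𝓡 2) ψ (f (φ.symm (e2 (A (J w))))) := by
    intro w hw
    exact ((contMDiffOn_of_mem_maximalAtlas hψm).contMDiffAt
      (ψ.open_source.mem_nhds ((hχs w).1 hw).2.2)).mdifferentiableAt (by simp)
  have hginj : ∀ w ∈ χ.source, ∀ w' ∈ χ.source,
      f (φ.symm (e2 (A (J w)))) = f (φ.symm (e2 (A (J w')))) → w = w' := by
    intro w hw w' hw' h
    exact χ.injOn hw hw' (by rw [hχ, hχ, h])
  have hgcont : ContinuousOn (fun w => f (φ.symm (e2 (A (J w))))) χ.source := by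
    intro w hw
    have h1 := (hχs w).1 hw
    apply ContinuousAt.continuousWithinAt
    have h2 : ContinuousAt (fun w => e2 (A (J w))) w := by
      apply e2.continuous.continuousAt.comp
      apply Ah.continuous.continuousAt.comp
      exact (diff_J h1.1).continuousAt
    exact f.continuous.continuousAt.comp
      ((φ.symm.continuousAt (by simpa using h1.2.1)).comp (f := fun w => e2 (A (J w))) h2)
  -- partial derivatives
  have hhor : ∀ y : ℝ, ∀ᵐ x ∂(volume : Measure ℝ), (x, y) ∈ U →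
      DifferentiableAt ℝ (fun x => F (x, y)) x := by
    intro y
    by_cases hy : y ∈ Ioo (2 - τ) (2 + τ)
    swap
    · exact Eventually.of_forall fun x hx => absurd hx.2 hy
    have hypos : 0 < y := by linarith [hy.1]
    have hy1 : 1 ≤ y := by linarith [hy.1]
    have hr : 1 / (2 * y) ≤ 1 / 2 := by
      apply one_div_le_one_div_of_le <;> linarith
    have hr0 : 0 < 1 / (2 * y) := by positivity
    set r := 1 / (2 * y) with hrdef
    obtain ⟨β, T, hT, hβ, hper, hinj, hran⟩ := hcirc (A (0, r)).1 (A (0, r)).2 (ρ * r)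
      (by positivity) (by
        intro t
        have : ((A (0, r)).1 + ρ * r * Real.cos t, (A (0, r)).2 + ρ * r * Real.sin t) =
            A (r * Real.cos t, r + r * Real.sin t) := by
          apply Prod.ext
          · simp [hA]
            ring
          · simp [hA]
            ring
        rw [this]
        have h3 := Real.cos_le_one t
        have h4 := Real.neg_one_le_cos t
        have h5 := Real.sin_le_one t
        have h6 := Real.neg_one_le_sin t
        apply hAtar
        · rw [abs_le]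
          constructor <;> simp only <;> nlinarith
        · rw [abs_le]
          constructor <;> simp only <;> nlinarith)
    have hmem : ∀ u ∈ Ioo (2 - τ) (2 + τ), (u, y) ∈ χ.source := fun u hu => hUs ⟨hu, hy⟩
    have hae := ae_mdiff hβ hT hper hinj (g := fun u => f (φ.symm (e2 (A (J (u, y))))))
      (a := 2 - τ) (b := 2 + τ)
      (hgcont.comp (f := fun u : ℝ => (u, y)) (by fun_prop) hmem)
      (fun u hu v hv huv => by
        have := hginj _ (hmem u hu) _ (hmem v hv) huv
        exact (Prod.mk.inj this).1)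
      (fun u hu => by
        obtain ⟨t, ht⟩ := J_hor (u := u) hypos
        rw [← hrdef] at ht
        have h7 := hran t
        have : ((A (0, r)).1 + ρ * r * Real.cos t, (A (0, r)).2 + ρ * r * Real.sin t) =
            A (J (u, y)) := by
          rw [ht]
          apply Prod.ext
          · simp [hA]
            ring
          · simp [hA]
            ring
        rw [this] at h7
        exact h7)
    filter_upwards [hae] with u hu huU
    have h8 := hu huU.1
    have h9 : MDifferentiableAt 𝓘(ℝ) (𝓡 2) (fun u => ψ (f (φ.symm (e2 (A (J (u, y))))))) u :=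
      (hmdχ _ (hUs huU)).comp u h8
    have h10 : DifferentiableAt ℝ (fun u => χ (u, y)) u := by
      rw [← mdifferentiableAt_iff_differentiableAt]
      exact h9
    refine h10.congr_of_eventuallyEq ?_
    filter_upwards [Ioo_mem_nhds huU.1.1 huU.1.2] with v hv
    exact hUF _ ⟨hv, hy⟩
  have hver : ∀ x : ℝ, ∀ᵐ y ∂(volume : Measure ℝ), (x, y) ∈ U →
      DifferentiableAt ℝ (fun y => F (x, y)) y := by
    intro y
    by_cases hy : y ∈ Ioo (2 - τ) (2 + τ)
    swap
    · exact Eventually.of_forall fun x hx => absurd hx.1 hy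
    have hypos : 0 < y := by linarith [hy.1]
    have hy1 : 1 ≤ y := by linarith [hy.1]
    have hr : 1 / (2 * y) ≤ 1 / 2 := by
      apply one_div_le_one_div_of_le <;> linarith
    have hr0 : 0 < 1 / (2 * y) := by positivity
    set r := 1 / (2 * y) with hrdef
    obtain ⟨β, T, hT, hβ, hper, hinj, hran⟩ := hcirc (A (r, 0)).1 (A (r, 0)).2 (ρ * r)
      (by positivity) (by
        intro t
        have : ((A (r, 0)).1 + ρ * r * Real.cos t, (A (r, 0)).2 + ρ * r * Real.sin t) =
            A (r + r * Real.cos t, r * Real.sin t) := by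
          apply Prod.ext
          · simp [hA]
            ring
          · simp [hA]
            ring
        rw [this]
        have h3 := Real.cos_le_one t
        have h4 := Real.neg_one_le_cos t
        have h5 := Real.sin_le_one t
        have h6 := Real.neg_one_le_sin t
        apply hAtar
        · rw [abs_le]
          constructor <;> simp only <;> nlinarith
        · rw [abs_le]
          constructor <;> simp only <;> nlinarith)
    have hmem : ∀ u ∈ Ioo (2 - τ) (2 + τ), (y, u) ∈ χ.source := fun u hu => hUs ⟨hy, hu⟩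
    have hae := ae_mdiff hβ hT hper hinj (g := fun u => f (φ.symm (e2 (A (J (y, u))))))
      (a := 2 - τ) (b := 2 + τ)
      (hgcont.comp (f := fun u : ℝ => (y, u)) (by fun_prop) hmem)
      (fun u hu v hv huv => by
        have := hginj _ (hmem u hu) _ (hmem v hv) huv
        exact (Prod.mk.inj this).2)
      (fun u hu => by
        obtain ⟨t, ht⟩ := J_ver (u := u) hypos
        rw [← hrdef] at ht
        have h7 := hran t
        have : ((A (r, 0)).1 + ρ * r * Real.cos t, (A (r, 0)).2 + ρ * r * Real.sin t) =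
            A (J (y, u)) := by
          rw [ht]
          apply Prod.ext
          · simp [hA]
            ring
          · simp [hA]
            ring
        rw [this] at h7
        exact h7)
    filter_upwards [hae] with u hu huU
    have h8 := hu huU.2
    have h9 : MDifferentiableAt 𝓘(ℝ) (𝓡 2) (fun u => ψ (f (φ.symm (e2 (A (J (y, u))))))) u :=
      (hmdχ _ (hUs huU)).comp u h8
    have h10 : DifferentiableAt ℝ (fun u => χ (y, u)) u := by
      rw [← mdifferentiableAt_iff_differentiableAt]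
      exact h9
    refine h10.congr_of_eventuallyEq ?_
    filter_upwards [Ioo_mem_nhds huU.2.1 huU.2.2] with v hv
    exact hUF _ ⟨hy, hv⟩
  have hGL := gehring_lehto hFc hUo hopen hhor hver
  rw [ae_iff] at hGL
  set Z := {w : ℝ × ℝ | ¬ (w ∈ U → DifferentiableAt ℝ F w)} with hZ
  have hZU : Z ⊆ U := by
    intro w hw
    by_contra hcon
    exact hw fun h => absurd h hcon
  -- null image
  have hZP : Z ⊆ P := fun w hw => ((hχs w).1 (hUs (hZU hw))).1
  have hnull : volume (e2 '' ((fun w => A (J w)) '' Z)) = 0 := by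
    apply null_e2
    apply addHaar_image_eq_zero_of_differentiableOn_of_addHaar_eq_zero
    · intro w hw
      apply DifferentiableAt.differentiableWithinAt
      have h1 := diff_J (hZP hw)
      simp only [hA]
      fun_prop
    · exact hGL
  -- the neighbourhood
  have hWo : IsOpen (Gh '' U) :=
    Gh.isOpen_image_of_subset_source hUo (fun w hw => by
      rw [hGs]
      exact ((hχs w).1 (hUs hw)).1)
  have hxW : x ∈ Gh '' U := ⟨w0, ⟨⟨by simp only [hw0]; linarith, by simp only [hw0]; linarith⟩,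
    ⟨by simp only [hw0]; linarith, by simp only [hw0]; linarith⟩⟩, by rw [hGh, hAw0, hex']⟩
  refine ⟨(φ '' (φ.source ∩ {p | ¬ MDifferentiableAt (𝓡 2) (𝓡 2) f p})) ∩ Gh '' U,
    inter_mem_nhdsWithin _ (hWo.mem_nhds hxW), measure_mono_null ?_ hnull⟩
  rintro y ⟨⟨q, ⟨hq, hqN⟩, hqy⟩, ⟨w, hw, hwy⟩⟩
  rw [hGh] at hwy
  refine ⟨A (J w), ⟨w, ?_, rfl⟩, hwy⟩
  intro hcon
  apply hqN
  have hdF : DifferentiableAt ℝ F w := hcon hw
  have hwχ := (hχs w).1 (hUs hw)
  -- the inverse coordinates
  have hyq : A' (e2.symm (φ q)) = J w := by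
    rw [hqy, ← hwy, ContinuousLinearEquiv.symm_apply_apply, hA'A]
  have hmφ : MDifferentiableAt (𝓡 2) (𝓡 2) φ q :=
    ((contMDiffOn_of_mem_maximalAtlas hφ).contMDiffAt (φ.open_source.mem_nhds hq)).mdifferentiableAt
      (by simp)
  have hd1 : DifferentiableAt ℝ (fun y => F (J (A' (e2.symm y)))) (φ q) := by
    have hh1 : DifferentiableAt ℝ (fun y => A' (e2.symm y)) (φ q) := by
      simp only [hA']
      fun_prop
    have hh2 : DifferentiableAt ℝ J (A' (e2.symm (φ q))) := by
      rw [hyq]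
      exact diff_J (J_mem hwχ.1)
    have hh3 : DifferentiableAt ℝ F (J (A' (e2.symm (φ q)))) := by
      rw [hyq, J_J hwχ.1]
      exact hdF
    exact DifferentiableAt.comp (g := F) (f := fun y => J (A' (e2.symm y))) (φ q) hh3
      (DifferentiableAt.comp (g := J) (f := fun y => A' (e2.symm y)) (φ q) hh2 hh1)
  have hval : F (J (A' (e2.symm (φ q)))) = ψ (f q) := by
    rw [hyq, J_J hwχ.1, hUF w hw, hχ, hwy, ← hqy, φ.left_inv hq]
  have hfq : f q ∈ ψ.source := by
    have := hwχ.2.2
    rw [hwy, ← hqy, φ.left_inv hq] at this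
    exact this
  have hmψ : MDifferentiableAt (𝓡 2) (𝓡 2) ψ.symm (F (J (A' (e2.symm (φ q))))) := by
    rw [hval]
    exact ((contMDiffOn_symm_of_mem_maximalAtlas hψm).contMDiffAt
      (ψ.open_target.mem_nhds (ψ.map_source hfq))).mdifferentiableAt (by simp)
  have hcomp : MDifferentiableAt (𝓡 2) (𝓡 2)
      (fun q' => ψ.symm (F (J (A' (e2.symm (φ q')))))) q :=
    hmψ.comp q ((hd1.mdifferentiableAt).comp q hmφ)
  refine hcomp.congr_of_eventuallyEq ?_
  -- equality near `q`
  have hcφ : ContinuousAt φ q := φ.continuousAt hq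
  have hc1 : ContinuousAt (fun q' => A' (e2.symm (φ q'))) q := by
    have : Continuous fun y => A' (e2.symm y) := by
      simp only [hA']
      fun_prop
    exact this.continuousAt.comp hcφ
  have hc2 : ContinuousAt (fun q' => J (A' (e2.symm (φ q')))) q := by
    have : ContinuousAt J (A' (e2.symm (φ q))) := by
      rw [hyq]
      exact (diff_J (J_mem hwχ.1)).continuousAt
    exact ContinuousAt.comp (g := J) (f := fun q' => A' (e2.symm (φ q'))) this hc1
  have hev1 : ∀ᶠ q' in 𝓝 q, A' (e2.symm (φ q')) ∈ P := by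
    apply hc1.eventually_mem
    rw [hyq]
    exact isOpen_P.mem_nhds (J_mem hwχ.1)
  have hev2 : ∀ᶠ q' in 𝓝 q, J (A' (e2.symm (φ q'))) ∈ U := by
    apply hc2.eventually_mem
    rw [hyq, J_J hwχ.1]
    exact hUo.mem_nhds hw
  have hev3 : ∀ᶠ q' in 𝓝 q, q' ∈ φ.source := φ.open_source.mem_nhds hq
  filter_upwards [hev1, hev2, hev3] with q' h1 h2 h3
  have h4 := (hχs _).1 (hUs h2)
  rw [J_J h1, hAA', ContinuousLinearEquiv.apply_symm_apply, φ.left_inv h3] at h4
  rw [hUF _ h2, hχ, J_J h1, hAA', ContinuousLinearEquiv.apply_symm_apply, φ.left_inv h3,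
    ψ.left_inv h4.2.2]

end Pool.Agent.X177.GL
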