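import Pool.Agent.X177.GL.Density

/-! # The Gehring-Lehto theorem: a continuous open map of the plane with partial derivatives almost
everywhere is differentiable almost everywhere -/

set_option autoImplicit false

namespace Pool.Agent.X177.GL

open MeasureTheory Set Filter Topology

variable {E : Type*} [NormedAddCommGroup E] [NormedSpace ℝ E]

/-- maximum principle for an open map -/
lemma maxp {F : ℝ × ℝ → E} (hF : Continuous F) {U : Set (ℝ × ℝ)}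
    (hopen : ∀ V : Set (ℝ × ℝ), IsOpen V → V ⊆ U → IsOpen (F '' V)) {a1 a2 b1 b2 : ℝ}
    (hU : Icc a1 a2 ×ˢ Icc b1 b2 ⊆ U) (c : E) (M : ℝ)
    (hM : ∀ w ∈ Icc a1 a2 ×ˢ Icc b1 b2, (w.1 = a1 ∨ w.1 = a2 ∨ w.2 = b1 ∨ w.2 = b2) →
      ‖F w - c‖ ≤ M) :
    ∀ w ∈ Icc a1 a2 ×ˢ Icc b1 b2, ‖F w - c‖ ≤ M := by
  intro w0 hw0
  obtain ⟨w, hw, hmax⟩ := (isCompact_Icc.prod isCompact_Icc).exists_isMaxOn
    (s := Icc a1 a2 ×ˢ Icc b1 b2) ⟨w0, hw0⟩
    (f := fun w => ‖F w - c‖) (by fun_prop)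
  have hle : ∀ w' ∈ Icc a1 a2 ×ˢ Icc b1 b2, ‖F w' - c‖ ≤ ‖F w - c‖ := fun w' hw' => hmax hw'
  by_cases hb : w.1 = a1 ∨ w.1 = a2 ∨ w.2 = b1 ∨ w.2 = b2
  · exact (hle w0 hw0).trans (hM w hw hb)
  push Not at hb
  obtain ⟨h1, h2, h3, h4⟩ := hb
  have hw' := hw
  obtain ⟨⟨h5, h6⟩, ⟨h7, h8⟩⟩ := hw'
  have hwI : w ∈ Ioo a1 a2 ×ˢ Ioo b1 b2 :=
    ⟨⟨lt_of_le_of_ne h5 (Ne.symm h1), lt_of_le_of_ne h6 h2⟩,
      ⟨lt_of_le_of_ne h7 (Ne.symm h3), lt_of_le_of_ne h8 h4⟩⟩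
  have hsub : Ioo a1 a2 ×ˢ Ioo b1 b2 ⊆ Icc a1 a2 ×ˢ Icc b1 b2 :=
    prod_mono Ioo_subset_Icc_self Ioo_subset_Icc_self
  have ho : IsOpen (F '' (Ioo a1 a2 ×ˢ Ioo b1 b2)) :=
    hopen _ (isOpen_Ioo.prod isOpen_Ioo) (hsub.trans hU)
  by_cases h0 : F w = c
  · have hz := hle w0 hw0
    rw [h0, sub_self, norm_zero] at hz
    have hcor : (a1, b1) ∈ Icc a1 a2 ×ˢ Icc b1 b2 :=
      ⟨⟨le_refl _, h5.trans h6⟩, ⟨le_refl _, h7.trans h8⟩⟩
    exact hz.trans ((norm_nonneg _).trans (hM _ hcor (Or.inl rfl)))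
  · exfalso
    have hcont : Continuous (fun η : ℝ => F w + η • (F w - c)) := by fun_prop
    have hmem : ∀ᶠ η in 𝓝 (0:ℝ), F w + η • (F w - c) ∈ F '' (Ioo a1 a2 ×ˢ Ioo b1 b2) := by
      apply hcont.continuousAt.eventually_mem
      rw [zero_smul, add_zero]
      exact ho.mem_nhds ⟨w, hwI, rfl⟩
    obtain ⟨η, hη, hηpos⟩ := ((hmem.filter_mono nhdsWithin_le_nhds).and
      (self_mem_nhdsWithin (s := Ioi (0:ℝ)))).exists
    obtain ⟨w1, hw1, hw1e⟩ := hη
    have h9 := hle w1 (hsub hw1)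
    rw [hw1e, show F w + η • (F w - c) - c = (1 + η) • (F w - c) by
      rw [add_smul, one_smul]; abel, norm_smul, Real.norm_of_nonneg
      (by have h : 0 < η := hηpos; linarith)] at h9
    have h10 : 0 < ‖F w - c‖ := norm_pos_iff.2 (sub_ne_zero.2 h0)
    have h11 : 0 < η := hηpos
    nlinarith

/-- the points where `α` is an approximate partial derivative in the first variable -/
def DH (F : ℝ × ℝ → E) (ε δ : ℝ) (α : E) : Set (ℝ × ℝ) :=
  {z | ∀ h : ℝ, |h| ≤ δ → ‖F (z.1 + h, z.2) - F z - h • α‖ ≤ ε * |h|}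

/-- the points where `β` is an approximate partial derivative in the second variable -/
def DV (F : ℝ × ℝ → E) (ε δ : ℝ) (β : E) : Set (ℝ × ℝ) :=
  {z | ∀ h : ℝ, |h| ≤ δ → ‖F (z.1, z.2 + h) - F z - h • β‖ ≤ ε * |h|}

lemma isClosed_DH {F : ℝ × ℝ → E} (hF : Continuous F) (ε δ : ℝ) (α : E) :
    IsClosed (DH F ε δ α) := by
  have : DH F ε δ α = ⋂ h : ℝ, ⋂ _ : |h| ≤ δ,
      {z | ‖F (z.1 + h, z.2) - F z - h • α‖ ≤ ε * |h|} := by
    ext z
    simp [DH]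
  rw [this]
  exact isClosed_iInter fun h => isClosed_iInter fun _ =>
    isClosed_le (by fun_prop) continuous_const

lemma isClosed_DV {F : ℝ × ℝ → E} (hF : Continuous F) (ε δ : ℝ) (β : E) :
    IsClosed (DV F ε δ β) := by
  have : DV F ε δ β = ⋂ h : ℝ, ⋂ _ : |h| ≤ δ,
      {z | ‖F (z.1, z.2 + h) - F z - h • β‖ ≤ ε * |h|} := by
    ext z
    simp [DV]
  rw [this]
  exact isClosed_iInter fun h => isClosed_iInter fun _ =>
    isClosed_le (by fun_prop) continuous_const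

/-- local estimate at a good point -/
lemma local_est {F : ℝ × ℝ → E} (hF : Continuous F) {U : Set (ℝ × ℝ)} (hU : IsOpen U)
    (hopen : ∀ V : Set (ℝ × ℝ), IsOpen V → V ⊆ U → IsOpen (F '' V)) {ε δ κ δ1 δ2 : ℝ} {α β : E}
    (hε : 0 < ε) (hδ : 0 < δ) (hκ : 0 < κ) (hκ1 : κ ≤ 1) (hκ2 : κ * (‖α‖ + ‖β‖) ≤ ε)
    (hδ1 : 0 < δ1) (hδ2 : 0 < δ2) {z0 : ℝ × ℝ} (hz0 : z0 ∈ U)
    (hgh : z0 ∈ GH (DH F ε δ α ∩ DV F ε δ β) κ δ1) (hgv : z0 ∈ GV (DH F ε δ α ∩ DV F ε δ β) κ δ2) :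
    ∃ ρ > 0, ∀ h k : ℝ, |h| ≤ ρ → |k| ≤ ρ →
      ‖F (z0.1 + h, z0.2 + k) - F z0 - h • α - k • β‖ ≤ 5 * ε * max |h| |k| := by
  obtain ⟨r, hr, hrU⟩ := Metric.isOpen_iff.1 hU z0 hz0
  set K := DH F ε δ α ∩ DV F ε δ β with hK
  have hz0K : z0 ∈ K := by
    obtain ⟨⟨t, ht, h⟩, _⟩ := hgh 0 (by simpa using hδ1.le)
    simpa using h
  refine ⟨min (min (r / 3) (δ / 2)) (min δ1 δ2), by positivity, fun h k hh hk => ?_⟩
  have hh1 : |h| ≤ r / 3 := hh.trans ((min_le_left _ _).trans (min_le_left _ _))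
  have hh2 : |h| ≤ δ / 2 := hh.trans ((min_le_left _ _).trans (min_le_right _ _))
  have hh3 : |h| ≤ δ1 := hh.trans ((min_le_right _ _).trans (min_le_left _ _))
  have hk1 : |k| ≤ r / 3 := hk.trans ((min_le_left _ _).trans (min_le_left _ _))
  have hk2 : |k| ≤ δ / 2 := hk.trans ((min_le_left _ _).trans (min_le_right _ _))
  have hk3 : |k| ≤ δ2 := hk.trans ((min_le_right _ _).trans (min_le_right _ _))
  obtain ⟨⟨t1, ht1, ha1⟩, ⟨t2, ht2, ha2⟩⟩ := hgh h hh3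
  obtain ⟨⟨t3, ht3, hb1⟩, ⟨t4, ht4, hb2⟩⟩ := hgv k hk3
  set a1 := z0.1 + h - t1 * κ * |h| with ha1e
  set a2 := z0.1 + h + t2 * κ * |h| with ha2e
  set b1 := z0.2 + k - t3 * κ * |k| with hb1e
  set b2 := z0.2 + k + t4 * κ * |k| with hb2e
  set m := max |h| |k| with hm
  have hhm : |h| ≤ m := le_max_left _ _
  have hkm : |k| ≤ m := le_max_right _ _
  have hm0 : 0 ≤ m := (abs_nonneg h).trans hhm
  have hmr : m ≤ r / 3 := max_le hh1 hk1
  have hmδ : m ≤ δ / 2 := max_le hh2 hk2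
  have tm : ∀ t : ℝ, t ∈ Icc (0:ℝ) 1 → ∀ x : ℝ, 0 ≤ x → x ≤ m → 0 ≤ t * κ * x ∧ t * κ * x ≤ κ * m := by
    intro t ht x hx hxm
    obtain ⟨ht0, ht1⟩ := ht
    refine ⟨by positivity, ?_⟩
    have : t * κ * x ≤ 1 * κ * m := by gcongr
    linarith
  have e1 := tm t1 ht1 |h| (abs_nonneg _) hhm
  have e2 := tm t2 ht2 |h| (abs_nonneg _) hhm
  have e3 := tm t3 ht3 |k| (abs_nonneg _) hkm
  have e4 := tm t4 ht4 |k| (abs_nonneg _) hkm
  have hκm : κ * m ≤ m := by nlinarith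
  have hhabs := abs_le.1 hhm
  have hkabs := abs_le.1 hkm
  -- points of the rectangle
  have hrect : ∀ w ∈ Icc a1 a2 ×ˢ Icc b1 b2, |w.1 - (z0.1 + h)| ≤ κ * m ∧
      |w.2 - (z0.2 + k)| ≤ κ * m := by
    rintro w ⟨⟨h1, h2⟩, ⟨h3, h4⟩⟩
    constructor
    · rw [abs_le]
      constructor <;> linarith
    · rw [abs_le]
      constructor <;> linarith
  have hrect2 : ∀ w ∈ Icc a1 a2 ×ˢ Icc b1 b2, |w.1 - z0.1| ≤ 2 * m ∧ |w.2 - z0.2| ≤ 2 * m := by
    intro w hw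
    obtain ⟨h1, h2⟩ := hrect w hw
    rw [abs_le] at h1 h2
    constructor
    · rw [abs_le]
      constructor <;> linarith
    · rw [abs_le]
      constructor <;> linarith
  have hsubU : Icc a1 a2 ×ˢ Icc b1 b2 ⊆ U := by
    intro w hw
    apply hrU
    obtain ⟨h1, h2⟩ := hrect2 w hw
    rw [Metric.mem_ball, Prod.dist_eq, Real.dist_eq, Real.dist_eq]
    exact lt_of_le_of_lt (max_le h1 h2) (by linarith)
  set c := F z0 + h • α + k • β with hc
  have hmain := maxp hF hopen hsubU c (5 * ε * m) ?_ (z0.1 + h, z0.2 + k)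
    ⟨⟨by linarith, by linarith⟩, ⟨by linarith, by linarith⟩⟩
  · rw [show F (z0.1 + h, z0.2 + k) - F z0 - h • α - k • β = F (z0.1 + h, z0.2 + k) - c by
      rw [hc]; abel]
    exact hmain
  intro w hw hbd
  obtain ⟨g1, g2⟩ := hrect w hw
  obtain ⟨g3, g4⟩ := hrect2 w hw
  -- estimate on the good lines
  have hline : ‖F w - F z0 - (w.1 - z0.1) • α - (w.2 - z0.2) • β‖ ≤
      ε * |w.1 - z0.1| + ε * |w.2 - z0.2| := by
    have vert : (w.1, z0.2) ∈ K → ‖F w - F z0 - (w.1 - z0.1) • α - (w.2 - z0.2) • β‖ ≤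
        ε * |w.1 - z0.1| + ε * |w.2 - z0.2| := by
      intro hmem
      have s1 := hz0K.1 (w.1 - z0.1) (g3.trans (by linarith))
      have s2 := hmem.2 (w.2 - z0.2) (g4.trans (by linarith))
      rw [show z0.1 + (w.1 - z0.1) = w.1 by ring] at s1
      simp only at s2
      rw [show z0.2 + (w.2 - z0.2) = w.2 by ring] at s2
      have : F w - F z0 - (w.1 - z0.1) • α - (w.2 - z0.2) • β =
          (F (w.1, z0.2) - F z0 - (w.1 - z0.1) • α) +
            (F (w.1, w.2) - F (w.1, z0.2) - (w.2 - z0.2) • β) := by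
        rw [Prod.mk.eta]
        abel
      rw [this]
      exact (norm_add_le _ _).trans (add_le_add s1 s2)
    have hori : (z0.1, w.2) ∈ K → ‖F w - F z0 - (w.1 - z0.1) • α - (w.2 - z0.2) • β‖ ≤
        ε * |w.1 - z0.1| + ε * |w.2 - z0.2| := by
      intro hmem
      have s1 := hz0K.2 (w.2 - z0.2) (g4.trans (by linarith))
      have s2 := hmem.1 (w.1 - z0.1) (g3.trans (by linarith))
      rw [show z0.2 + (w.2 - z0.2) = w.2 by ring] at s1
      simp only at s2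
      rw [show z0.1 + (w.1 - z0.1) = w.1 by ring] at s2
      have : F w - F z0 - (w.1 - z0.1) • α - (w.2 - z0.2) • β =
          (F (w.1, w.2) - F (z0.1, w.2) - (w.1 - z0.1) • α) +
            (F (z0.1, w.2) - F z0 - (w.2 - z0.2) • β) := by
        rw [Prod.mk.eta]
        abel
      rw [this]
      exact (norm_add_le _ _).trans (add_le_add s2 s1)
    rcases hbd with hb | hb | hb | hb
    · exact vert (by rw [hb]; exact ha1)
    · exact vert (by rw [hb]; exact ha2)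
    · exact hori (by rw [hb]; exact hb1)
    · exact hori (by rw [hb]; exact hb2)
  have hdec : F w - c = (F w - F z0 - (w.1 - z0.1) • α - (w.2 - z0.2) • β) +
      ((w.1 - (z0.1 + h)) • α + (w.2 - (z0.2 + k)) • β) := by
    rw [hc]
    simp only [sub_smul, add_smul]
    abel
  rw [hdec]
  have n1 : ‖(w.1 - (z0.1 + h)) • α‖ ≤ κ * m * ‖α‖ := by
    rw [norm_smul, Real.norm_eq_abs]
    exact mul_le_mul_of_nonneg_right g1 (norm_nonneg _)
  have n2 : ‖(w.2 - (z0.2 + k)) • β‖ ≤ κ * m * ‖β‖ := by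
    rw [norm_smul, Real.norm_eq_abs]
    exact mul_le_mul_of_nonneg_right g2 (norm_nonneg _)
  have n3 := norm_add_le (F w - F z0 - (w.1 - z0.1) • α - (w.2 - z0.2) • β)
    ((w.1 - (z0.1 + h)) • α + (w.2 - (z0.2 + k)) • β)
  have n4 := norm_add_le ((w.1 - (z0.1 + h)) • α) ((w.2 - (z0.2 + k)) • β)
  have n5 : κ * m * ‖α‖ + κ * m * ‖β‖ ≤ ε * m := by
    have := mul_le_mul_of_nonneg_right hκ2 hm0
    nlinarith
  have n6 : ε * |w.1 - z0.1| ≤ ε * (2 * m) := mul_le_mul_of_nonneg_left g3 hε.le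
  have n7 : ε * |w.2 - z0.2| ≤ ε * (2 * m) := mul_le_mul_of_nonneg_left g4 hε.le
  linarith

/-- a map of two real variables is differentiable if it has partial derivatives and linear
approximations of every precision -/
lemma diff_of_approx {F : ℝ × ℝ → E} {z0 : ℝ × ℝ} {A B : E}
    (hA : HasDerivAt (fun x => F (x, z0.2)) A z0.1) (hB : HasDerivAt (fun y => F (z0.1, y)) B z0.2)
    (happ : ∀ ε : ℝ, 0 < ε → ∃ (α β : E) (ρ : ℝ), 0 < ρ ∧ ∀ h k : ℝ, |h| ≤ ρ → |k| ≤ ρ →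
      ‖F (z0.1 + h, z0.2 + k) - F z0 - h • α - k • β‖ ≤ ε * max |h| |k|) :
    DifferentiableAt ℝ F z0 := by
  have hmain : HasFDerivAt F ((ContinuousLinearMap.fst ℝ ℝ ℝ).smulRight A +
      (ContinuousLinearMap.snd ℝ ℝ ℝ).smulRight B) z0 := by
    rw [hasFDerivAt_iff_isLittleO_nhds_zero, Asymptotics.isLittleO_iff]
    intro c hc
    have hc8 : 0 < c / 8 := by positivity
    obtain ⟨α, β, ρ, hρ, happ⟩ := happ (c / 8) hc8
    -- compare the derivatives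
    have hAα : ‖A - α‖ ≤ c / 4 := by
      rw [hasDerivAt_iff_isLittleO_nhds_zero, Asymptotics.isLittleO_iff] at hA
      have h1 := hA hc8
      have h2 : ∀ᶠ h in 𝓝 (0:ℝ), |h| ≤ ρ := by
        have : Tendsto (fun h : ℝ => |h|) (𝓝 0) (𝓝 0) := by
          simpa using (continuous_abs (G := ℝ)).tendsto 0
        exact this.eventually (ge_mem_nhds hρ)
      obtain ⟨h, ⟨h3, h4⟩, h5⟩ := (((h1.and h2).filter_mono nhdsWithin_le_nhds).and
        (self_mem_nhdsWithin (s := Ioi (0:ℝ)))).exists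
      have h5' : 0 < h := h5
      have h6 := happ h 0 h4 (by simpa using hρ.le)
      rw [add_zero, zero_smul, sub_zero, abs_zero, max_eq_left (abs_nonneg h)] at h6
      have h7 : ‖h • (A - α)‖ ≤ c / 4 * |h| := by
        have : h • (A - α) = (F (z0.1 + h, z0.2) - F z0 - h • α) -
            (F (z0.1 + h, z0.2) - F (z0.1, z0.2) - h • A) := by
          rw [Prod.mk.eta, smul_sub]
          abel
        rw [this]
        refine (norm_sub_le _ _).trans ?_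
        have h8 := add_le_add h6 h3
        rw [Real.norm_eq_abs] at h8
        linarith
      rw [norm_smul, Real.norm_eq_abs, mul_comm] at h7
      exact le_of_mul_le_mul_right h7 (abs_pos.2 h5'.ne')
    have hBβ : ‖B - β‖ ≤ c / 4 := by
      rw [hasDerivAt_iff_isLittleO_nhds_zero, Asymptotics.isLittleO_iff] at hB
      have h1 := hB hc8
      have h2 : ∀ᶠ h in 𝓝 (0:ℝ), |h| ≤ ρ := by
        have : Tendsto (fun h : ℝ => |h|) (𝓝 0) (𝓝 0) := by
          simpa using (continuous_abs (G := ℝ)).tendsto 0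
        exact this.eventually (ge_mem_nhds hρ)
      obtain ⟨h, ⟨h3, h4⟩, h5⟩ := (((h1.and h2).filter_mono nhdsWithin_le_nhds).and
        (self_mem_nhdsWithin (s := Ioi (0:ℝ)))).exists
      have h5' : 0 < h := h5
      have h6 := happ 0 h (by simpa using hρ.le) h4
      rw [add_zero, zero_smul, sub_zero, abs_zero, max_eq_right (abs_nonneg h)] at h6
      have h7 : ‖h • (B - β)‖ ≤ c / 4 * |h| := by
        have : h • (B - β) = (F (z0.1, z0.2 + h) - F z0 - h • β) -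
            (F (z0.1, z0.2 + h) - F (z0.1, z0.2) - h • B) := by
          rw [Prod.mk.eta, smul_sub]
          abel
        rw [this]
        refine (norm_sub_le _ _).trans ?_
        have h8 := add_le_add h6 h3
        rw [Real.norm_eq_abs] at h8
        linarith
      rw [norm_smul, Real.norm_eq_abs, mul_comm] at h7
      exact le_of_mul_le_mul_right h7 (abs_pos.2 h5'.ne')
    rw [Metric.eventually_nhds_iff]
    refine ⟨ρ, hρ, fun w hw => ?_⟩
    rw [dist_zero_right] at hw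
    have hw1 : |w.1| ≤ ρ := (norm_fst_le w).trans hw.le
    have hw2 : |w.2| ≤ ρ := (norm_snd_le w).trans hw.le
    have h1 := happ w.1 w.2 hw1 hw2
    have hmw : max |w.1| |w.2| = ‖w‖ := by
      rw [Prod.norm_def, Real.norm_eq_abs, Real.norm_eq_abs]
    rw [hmw] at h1
    have h2 : F (z0 + w) - F z0 - ((ContinuousLinearMap.fst ℝ ℝ ℝ).smulRight A +
        (ContinuousLinearMap.snd ℝ ℝ ℝ).smulRight B) w =
        (F (z0.1 + w.1, z0.2 + w.2) - F z0 - w.1 • α - w.2 • β) - (w.1 • (A - α) + w.2 • (B - β)) := by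
      simp only [_root_.add_apply, ContinuousLinearMap.smulRight_apply,
        ContinuousLinearMap.coe_fst', ContinuousLinearMap.coe_snd', smul_sub]
      rw [show z0 + w = (z0.1 + w.1, z0.2 + w.2) from rfl]
      abel
    rw [h2]
    have h3 : ‖w.1 • (A - α)‖ ≤ ‖w‖ * (c / 4) := by
      rw [norm_smul]
      exact mul_le_mul (norm_fst_le w) hAα (norm_nonneg _) (norm_nonneg _)
    have h4 : ‖w.2 • (B - β)‖ ≤ ‖w‖ * (c / 4) := by
      rw [norm_smul]
      exact mul_le_mul (norm_snd_le w) hBβ (norm_nonneg _) (norm_nonneg _)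
    have h5 := norm_sub_le (F (z0.1 + w.1, z0.2 + w.2) - F z0 - w.1 • α - w.2 • β)
      (w.1 • (A - α) + w.2 • (B - β))
    have h6 := norm_add_le (w.1 • (A - α)) (w.2 • (B - β))
    have h7 : 0 ≤ c * ‖w‖ := by positivity
    nlinarith
  exact hmain.differentiableAt

lemma mem_DH_of_diff {F : ℝ × ℝ → E} {z : ℝ × ℝ} {A α : E}
    (hA : HasDerivAt (fun x => F (x, z.2)) A z.1) {ε : ℝ} (hε : 0 < ε) (hα : ‖A - α‖ ≤ ε / 2) :
    ∃ δ > 0, ∀ δ' ≤ δ, z ∈ DH F ε δ' α := by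
  rw [hasDerivAt_iff_isLittleO_nhds_zero, Asymptotics.isLittleO_iff] at hA
  obtain ⟨δ, hδ, h1⟩ := Metric.eventually_nhds_iff.1 (hA (half_pos hε))
  refine ⟨δ / 2, by positivity, fun δ' hδ' h hh => ?_⟩
  have h2 := h1 (y := h) (by rw [Real.dist_eq, sub_zero]; linarith)
  have : F (z.1 + h, z.2) - F z - h • α = (F (z.1 + h, z.2) - F (z.1, z.2) - h • A) +
      h • (A - α) := by
    rw [Prod.mk.eta, smul_sub]
    abel
  rw [this]
  refine (norm_add_le _ _).trans ?_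
  rw [norm_smul]
  rw [Real.norm_eq_abs] at h2 ⊢
  have h3 : |h| * ‖A - α‖ ≤ |h| * (ε / 2) := mul_le_mul_of_nonneg_left hα (abs_nonneg _)
  linarith

lemma mem_DV_of_diff {F : ℝ × ℝ → E} {z : ℝ × ℝ} {B β : E}
    (hB : HasDerivAt (fun y => F (z.1, y)) B z.2) {ε : ℝ} (hε : 0 < ε) (hβ : ‖B - β‖ ≤ ε / 2) :
    ∃ δ > 0, ∀ δ' ≤ δ, z ∈ DV F ε δ' β := by
  rw [hasDerivAt_iff_isLittleO_nhds_zero, Asymptotics.isLittleO_iff] at hB
  obtain ⟨δ, hδ, h1⟩ := Metric.eventually_nhds_iff.1 (hB (half_pos hε))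
  refine ⟨δ / 2, by positivity, fun δ' hδ' h hh => ?_⟩
  have h2 := h1 (y := h) (by rw [Real.dist_eq, sub_zero]; linarith)
  have : F (z.1, z.2 + h) - F z - h • β = (F (z.1, z.2 + h) - F (z.1, z.2) - h • B) +
      h • (B - β) := by
    rw [Prod.mk.eta, smul_sub]
    abel
  rw [this]
  refine (norm_add_le _ _).trans ?_
  rw [norm_smul]
  rw [Real.norm_eq_abs] at h2 ⊢
  have h3 : |h| * ‖B - β‖ ≤ |h| * (ε / 2) := mul_le_mul_of_nonneg_left hβ (abs_nonneg _)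
  linarith

variable [CompleteSpace E] [SecondCountableTopology E]

/-- **Gehring-Lehto**: a continuous map which is open on `U` and has partial derivatives almost
everywhere on horizontal and vertical lines is differentiable almost everywhere on `U`. -/
theorem gehring_lehto {F : ℝ × ℝ → E} (hF : Continuous F) {U : Set (ℝ × ℝ)} (hU : IsOpen U)
    (hopen : ∀ V : Set (ℝ × ℝ), IsOpen V → V ⊆ U → IsOpen (F '' V))
    (hx : ∀ y : ℝ, ∀ᵐ x ∂(volume : Measure ℝ), (x, y) ∈ U →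
      DifferentiableAt ℝ (fun x => F (x, y)) x)
    (hy : ∀ x : ℝ, ∀ᵐ y ∂(volume : Measure ℝ), (x, y) ∈ U →
      DifferentiableAt ℝ (fun y => F (x, y)) y) :
    ∀ᵐ z ∂(volume : Measure (ℝ × ℝ)), z ∈ U → DifferentiableAt ℝ F z := by
  -- partial derivatives exist almost everywhere
  have hpx : ∀ᵐ z ∂(volume : Measure (ℝ × ℝ)), z ∈ U →
      DifferentiableAt ℝ (fun x => F (x, z.2)) z.1 := by
    have hm : MeasurableSet {p : ℝ × ℝ | DifferentiableAt ℝ (fun x => F (x, p.1)) p.2} :=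
      measurableSet_of_differentiableAt_with_param ℝ (f := fun y x => F (x, y)) (by
        simp only [Function.uncurry_def]
        fun_prop)
    have hm2 : MeasurableSet {z : ℝ × ℝ | ¬ (z ∈ U → DifferentiableAt ℝ (fun x => F (x, z.2)) z.1)} := by
      have : {z : ℝ × ℝ | ¬ (z ∈ U → DifferentiableAt ℝ (fun x => F (x, z.2)) z.1)} =
          U \ (Prod.swap ⁻¹' {p : ℝ × ℝ | DifferentiableAt ℝ (fun x => F (x, p.1)) p.2}) := by
        ext z
        simp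
      rw [this]
      exact hU.measurableSet.diff (measurable_swap hm)
    rw [ae_iff, show (volume : Measure (ℝ × ℝ)) =
      (volume : Measure ℝ).prod (volume : Measure ℝ) from rfl, Measure.prod_apply_symm hm2,
      lintegral_eq_zero_iff' (measurable_measure_prodMk_right hm2).aemeasurable]
    refine Eventually.of_forall fun y => ?_
    exact (ae_iff.1 (hx y))
  have hpy : ∀ᵐ z ∂(volume : Measure (ℝ × ℝ)), z ∈ U →
      DifferentiableAt ℝ (fun y => F (z.1, y)) z.2 := by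
    have hm : MeasurableSet {p : ℝ × ℝ | DifferentiableAt ℝ (fun y => F (p.1, y)) p.2} :=
      measurableSet_of_differentiableAt_with_param ℝ (f := fun x y => F (x, y)) (by
        simp only [Function.uncurry_def]
        fun_prop)
    have hm2 : MeasurableSet {z : ℝ × ℝ | ¬ (z ∈ U → DifferentiableAt ℝ (fun y => F (z.1, y)) z.2)} := by
      have : {z : ℝ × ℝ | ¬ (z ∈ U → DifferentiableAt ℝ (fun y => F (z.1, y)) z.2)} =
          U \ {p : ℝ × ℝ | DifferentiableAt ℝ (fun y => F (p.1, y)) p.2} := by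
        ext z
        simp
      rw [this]
      exact hU.measurableSet.diff hm
    rw [ae_iff, show (volume : Measure (ℝ × ℝ)) =
      (volume : Measure ℝ).prod (volume : Measure ℝ) from rfl, Measure.prod_apply hm2,
      lintegral_eq_zero_iff' (measurable_measure_prodMk_left hm2).aemeasurable]
    refine Eventually.of_forall fun x => ?_
    exact (ae_iff.1 (hy x))
  -- countable dense set
  obtain ⟨D, hDc, hDd⟩ := TopologicalSpace.exists_countable_dense E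
  have hDE : ∀ (A : E) (η : ℝ), 0 < η → ∃ α ∈ D, ‖A - α‖ ≤ η := by
    intro A η hη
    obtain ⟨α, hα, h⟩ := hDd.exists_dist_lt A hη
    exact ⟨α, hα, by rw [← dist_eq_norm]; exact h.le⟩
  have : Countable D := hDc.to_subtype
  set κ : ℕ → E → E → ℝ := fun m α β => min 1 ((1 / ((m:ℝ) + 1)) / (‖α‖ + ‖β‖ + 1)) with hκdef
  have hκpos : ∀ m α β, 0 < κ m α β := fun m α β => by
    simp only [hκdef]
    positivity
  have hκ1 : ∀ m α β, κ m α β ≤ 1 := fun m α β => min_le_left _ _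
  have hκ2 : ∀ m α β, κ m α β * (‖α‖ + ‖β‖) ≤ 1 / ((m:ℝ) + 1) := by
    intro m α β
    have h1 : κ m α β ≤ (1 / ((m:ℝ) + 1)) / (‖α‖ + ‖β‖ + 1) := min_le_right _ _
    have h2 : 0 < ‖α‖ + ‖β‖ + 1 := by positivity
    calc κ m α β * (‖α‖ + ‖β‖) ≤ κ m α β * (‖α‖ + ‖β‖ + 1) := by
          have := (hκpos m α β).le
          nlinarith
      _ ≤ (1 / ((m:ℝ) + 1)) / (‖α‖ + ‖β‖ + 1) * (‖α‖ + ‖β‖ + 1) :=
          mul_le_mul_of_nonneg_right h1 h2.le
      _ = 1 / ((m:ℝ) + 1) := by field_simp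
  have hgood : ∀ᵐ z ∂(volume : Measure (ℝ × ℝ)), ∀ (m n : ℕ) (α β : D),
      z ∈ DH F (1 / ((m:ℝ) + 1)) (1 / ((n:ℝ) + 1)) α ∩ DV F (1 / ((m:ℝ) + 1)) (1 / ((n:ℝ) + 1)) β →
      (∃ l : ℕ, z ∈ GH (DH F (1 / ((m:ℝ) + 1)) (1 / ((n:ℝ) + 1)) α ∩
        DV F (1 / ((m:ℝ) + 1)) (1 / ((n:ℝ) + 1)) β) (κ m α β) (1 / ((l:ℝ) + 1))) ∧
      (∃ l : ℕ, z ∈ GV (DH F (1 / ((m:ℝ) + 1)) (1 / ((n:ℝ) + 1)) α ∩
        DV F (1 / ((m:ℝ) + 1)) (1 / ((n:ℝ) + 1)) β) (κ m α β) (1 / ((l:ℝ) + 1))) := by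
    rw [ae_all_iff]; intro m
    rw [ae_all_iff]; intro n
    rw [ae_all_iff]; intro α
    rw [ae_all_iff]; intro β
    have hcl : IsClosed (DH F (1 / ((m:ℝ) + 1)) (1 / ((n:ℝ) + 1)) (α : E) ∩
        DV F (1 / ((m:ℝ) + 1)) (1 / ((n:ℝ) + 1)) (β : E)) :=
      (isClosed_DH hF _ _ _).inter (isClosed_DV hF _ _ _)
    filter_upwards [ae_GH hcl (hκpos m α β) (hκ1 m α β), ae_GV hcl (hκpos m α β) (hκ1 m α β)]
      with z h1 h2 hz
    exact ⟨h1 hz, h2 hz⟩
  filter_upwards [hpx, hpy, hgood] with z h1 h2 h3 hzU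
  have hA := (h1 hzU).hasDerivAt
  have hB := (h2 hzU).hasDerivAt
  refine diff_of_approx hA hB fun ε hε => ?_
  obtain ⟨m, hm⟩ := exists_nat_one_div_lt (show (0:ℝ) < ε / 5 by linarith)
  have hm0 : (0:ℝ) < 1 / ((m:ℝ) + 1) := by positivity
  obtain ⟨α, hα, hα2⟩ := hDE (deriv (fun x => F (x, z.2)) z.1) (1 / ((m:ℝ) + 1) / 2) (by positivity)
  obtain ⟨β, hβ, hβ2⟩ := hDE (deriv (fun y => F (z.1, y)) z.2) (1 / ((m:ℝ) + 1) / 2) (by positivity)
  obtain ⟨δa, hδa, ha⟩ := mem_DH_of_diff hA hm0 hα2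
  obtain ⟨δb, hδb, hb⟩ := mem_DV_of_diff hB hm0 hβ2
  obtain ⟨n, hn⟩ := exists_nat_one_div_lt (lt_min hδa hδb)
  obtain ⟨⟨l1, hl1⟩, ⟨l2, hl2⟩⟩ := h3 m n ⟨α, hα⟩ ⟨β, hβ⟩
    ⟨ha _ (hn.le.trans (min_le_left _ _)), hb _ (hn.le.trans (min_le_right _ _))⟩
  obtain ⟨ρ, hρ, hest⟩ := local_est hF hU hopen hm0 (by positivity) (hκpos m α β) (hκ1 m α β)
    (hκ2 m α β) (by positivity) (by positivity) hzU hl1 hl2
  refine ⟨α, β, ρ, hρ, fun h k hh hk => (hest h k hh hk).trans ?_⟩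
  have : 0 ≤ max |h| |k| := (abs_nonneg h).trans (le_max_left _ _)
  have h5 : 5 * (1 / ((m:ℝ) + 1)) ≤ ε := by linarith
  exact mul_le_mul_of_nonneg_right h5 this

end Pool.Agent.X177.GL
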